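import Pool.Agent.N599.OM.DGMin

/-!
# Shortest paths: formulas with determinant gates need size `n ^ 2` up to a root of the word length

A directed graph has three layers of `n` vertices and the edge weights `A i k` (first to second
layer), `B k j` (second to third layer) and `C i j` (first to third layer), integers in
`{1, …, n + 1}`. Is some edge `i → j` longer than a path `i → k → j`? The items of the input are the
weights of all edges at `i`, for each vertex `i` of the first layer, and the matrix `B`.

A formula (`Fml`) is built from real constants, arbitrary real functions of one item, and arbitrary
real functions of `w` words of length `c log₂ n`, where each word is an arbitrary function of one item,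
by the gates

* `pos`: is the value positive? (`1` or `0`),
* `sym`: any fan-in, any real function of the number of positive inputs,
* `det`: the determinant of a real matrix of any order whose entries are formulas (sums and products
  are determinants of order two),
* `reg`: is the matrix over an arbitrary field `K`, of any order, whose entry `(a, b)` is `c' a b` or
  `c a b`, according to whether the formula `(a, b)` is positive or not, regular? (`1` or `0`).

The size is the number of the leaves which are not constants, plus the number of wires which lead to
gates `sym`. So constants and the orders of the matrices are free. The formula accepts if its value is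
positive.

1. Random formulas of size at most `s` with error probability at most `1 / 3` need
   `n ^ 4 ≤ 2 * 10 ^ 7 * c * w ^ 3 * s ^ 2`.
2. For every bound `W` of the weights there is a formula without errors of size `3 n ^ 2` whose leaves
   see one item each.

So the smallest size is `n ^ 2` up to constant factors for constant `c`, `w`. Real formulas without
determinant gates need size of order `n ^ 3 / c` (the starting result `RealPrograms`): the exponents
of the min-plus product and of the matrix product differ, and one determinant gate with real
entries of unlimited precision suffices for the min-plus product.

Proof. (1) The item `i` can ask for each of the `n ^ 2` entries of the matrix `B` (a comparison with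
a threshold for each of its `log₂ n` bits). If `r` leaves see this item, the other parts of the
formula enter the determinants only through `O (r ^ 2)` numbers, so `2 ^ O (r ^ 2 log n)` functions of
this item arise when the other items are fixed (the theorem of `Pool.Agent.Y649.DG`).
(2) Let `Z = n ^ 3 + 1`. The sum of `Z ^ (-A i k) Z ^ (-B k j) Z ^ (C i j)` over all triples
`(i, j, k)` is at least `Z` if some triple satisfies `A i k + B k j < C i j`, and at most `n ^ 3`
otherwise. It is the trace of a product of three matrices, which is obtained from the determinant
of a matrix of order `3 n` with a small parameter.
-/

set_option autoImplicit false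

namespace Pool.Agent.Results.MP_885423_lc.DeterminantGates

open Pool.Agent.TH697.Form (IsProb)
open Pool.Agent.TH697.Row (ApproximatesOn)
open Pool.Agent.TH697.Form.MinPlus (Item InRange shortcut)
open Pool.Agent.Y649.DG (Fml)

theorem result :
    (∀ n c w : ℕ, 16 ≤ n → 1 ≤ c → 1 ≤ w →
      ∀ (Ω : Type) [Fintype Ω] (μ : Ω → ℝ), IsProb μ →
        ∀ (s : ℕ) (F : Ω → Fml (Option (Fin n)) (Item n) w (n ^ c)),
          (∀ ω, (F ω).size ≤ s) →
          ApproximatesOn μ (fun ω => (F ω).accepts) (InRange n (n + 1)) (shortcut n) →
          (n : ℝ) ^ 4 ≤ 2 * 10 ^ 7 * c * w ^ 3 * s ^ 2) ∧
    (∀ n W w q : ℕ, ∃ F : Fml (Option (Fin n)) (Item n) w q, F.size = 3 * n ^ 2 ∧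
      ∀ x, InRange n W x → F.accepts x = shortcut n x) :=
  ⟨fun _ _ _ hn hc hw _ _ μ hμ s F hs hF =>
    Pool.Agent.N599.OM.DGMin.lower hn hc hw μ hμ s F hs hF,
    fun n W w q => Pool.Agent.N599.OM.DGMin.upper n W w q⟩

end Pool.Agent.Results.MP_885423_lc.DeterminantGates
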