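import Mathlib
import Pool.Agent.N578.Enc.Cor

/-!
# Entrywise encodings cannot reduce the (min,+) product to cheap ring products

Yuval, Alon, Galil, Margalit and Zwick compute (min,+) products (equivalently, all-pairs shortest
paths) by products of matrices over a ring: the entries of the two matrices are encoded by ring
elements, and the entry `(i, j)` of the result is read off the entries `(i, j)` of the ring
products. We show that this needs about `n` bits per entry in total, even if the encoding of an
entry may depend on its whole column (in the first matrix) or row (in the second), the products are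
over arbitrary rings, several products are used, a bounded error is allowed, or the result is needed
approximately only. So the (number of products) * (bits of a ring element) is at least `n`, for
entries up to `n / 2`, and even with matrix products in linear time such a reduction is not
subcubic.

* `IsMinPlus A B i j c`: `c` is the minimum over `k` of `A i k + B k j`.
* `Bounded M A B`: all entries of `A` and `B` are integers between `0` and `M`.
* `ringCode f g A B`: the entries `(i, j)` of `T` matrix products over rings `R t`.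
* `sliceCode F A B`: the product over `k` (in order) of arbitrary group elements which depend on `k`,
  the `k`-th column of `A` and the `k`-th row of `B`.
* `Scales α β L K`: there are integers `v 0, ..., v L` with `v L ≤ K`, `v (l + 1) > α * v l + β`.
* `pairCode π f g A B`: sum over `k` of the values of a biadditive map at a code `f k` of the `k`-th
  column of `A` and a code `g` of the `k`-th row of `B`.
-/

set_option autoImplicit false

open Pool.Agent.N578.Enc

open Classical in
theorem Pool.Agent.Results.MP_885423_lc.EntrywiseEncodings.result :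
    -- arbitrary group-valued slice codes, deterministic
    (∀ (G : Type) [Group G] (m n p M L : ℕ) (i : Fin m) (j : Fin p) (α β : ℝ),
      1 ≤ α → 0 ≤ β → Scales α β L (2 * M) →
      ∀ (F : Fin n → (Fin m → ℕ) → (Fin p → ℕ) → G) (D : G → ℝ),
      (∀ A B, Bounded M A B → ∀ c, IsMinPlus A B i j c →
        (c : ℝ) ≤ D (sliceCode F A B) ∧ D (sliceCode F A B) ≤ α * c + β) →
      ∀ S : Finset G, (∀ A B, Bounded M A B → sliceCode F A B ∈ S) →
      (n + L).choose n ≤ S.card) ∧
    -- arbitrary group-valued slice codes, error probability at most 1/3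
    (∀ (G : Type) [Group G] (m n p M L : ℕ) (i : Fin m) (j : Fin p) (α β : ℝ),
      1 ≤ α → 0 ≤ β → Scales α β L (2 * M) →
      ∀ (Ω : Type) [Fintype Ω] (P : Ω → ℝ), (∀ r, 0 ≤ P r) → ∑ r, P r = 1 →
      ∀ (F : Ω → Fin n → (Fin m → ℕ) → (Fin p → ℕ) → G) (D : Ω → G → ℝ),
      (∀ A B, Bounded M A B → ∀ c, IsMinPlus A B i j c →
        ∑ r, (if (c : ℝ) ≤ D r (sliceCode (F r) A B) ∧
          D r (sliceCode (F r) A B) ≤ α * c + β then 0 else P r) ≤ 1 / 3) →
      ∀ (q : ℕ) (S : Ω → Finset G), (∀ r, (S r).card ≤ q) →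
      (∀ r A B, Bounded M A B → sliceCode (F r) A B ∈ S r) →
      2 ^ (min n ((L + 1) / 2)) ≤ (5 * q) ^ 50) ∧
    -- `T` matrix products over rings with at most `2 ^ w` elements
    (∀ (T w : ℕ) (R : Fin T → Type) [∀ t, Ring (R t)] [∀ t, Fintype (R t)],
      (∀ t, Fintype.card (R t) ≤ 2 ^ w) →
      ∀ (m n p M L : ℕ) (i : Fin m) (j : Fin p) (α β : ℝ),
      1 ≤ α → 0 ≤ β → Scales α β L (2 * M) →
      (∀ (f : ∀ t, Fin n → (Fin m → ℕ) → R t) (g : ∀ t, Fin n → (Fin p → ℕ) → R t)
        (D : (∀ t, R t) → ℝ),
        (∀ A B, Bounded M A B → ∀ c, IsMinPlus A B i j c →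
          (c : ℝ) ≤ D (ringCode f g A B) ∧ D (ringCode f g A B) ≤ α * c + β) →
        (n + L).choose n ≤ 2 ^ (w * T) ∧ min n L ≤ w * T) ∧
      (∀ (Ω : Type) [Fintype Ω] (P : Ω → ℝ), (∀ r, 0 ≤ P r) → ∑ r, P r = 1 →
        ∀ (f : Ω → ∀ t, Fin n → (Fin m → ℕ) → R t) (g : Ω → ∀ t, Fin n → (Fin p → ℕ) → R t)
        (D : Ω → (∀ t, R t) → ℝ),
        (∀ A B, Bounded M A B → ∀ c, IsMinPlus A B i j c →
          ∑ r, (if (c : ℝ) ≤ D r (ringCode (f r) (g r) A B) ∧
            D r (ringCode (f r) (g r) A B) ≤ α * c + β then 0 else P r) ≤ 1 / 3) →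
        min n ((L + 1) / 2) ≤ 50 * (w * T + 3))) ∧
    -- the exact case
    (∀ M : ℕ, Scales 1 0 (2 * M) (2 * M)) ∧
    -- the decision version, with block codes: is some `A i k + B k j` smaller than `M`?
    (∀ (X Y Z : Type) [AddCommGroup X] [AddCommGroup Y] [AddCommGroup Z] [Fintype X]
      (m n p M : ℕ) (i : Fin m) (j : Fin p) (π : X →+ Y →+ Z),
      (∀ (f : Fin n → (Fin m → ℕ) → X) (g : (Fin p → ℕ) → Y) (D : Z → Prop),
        (∀ A B, Bounded M A B →
          ((∃ k, A i k + B k j < M) ↔ D (pairCode π f g A B))) →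
        (n + M).choose n ≤ Fintype.card X) ∧
      (∀ (Ω : Type) [Fintype Ω] (P : Ω → ℝ), (∀ r, 0 ≤ P r) → ∑ r, P r = 1 →
        ∀ (f : Ω → Fin n → (Fin m → ℕ) → X) (g : Ω → (Fin p → ℕ) → Y) (D : Ω → Z → Prop),
        (∀ A B, Bounded M A B →
          ∑ r, (if ((∃ k, A i k + B k j < M) ↔ D r (pairCode π (f r) (g r) A B)) then 0
            else P r) ≤ 1 / 3) →
        2 ^ (min n ((M + 1) / 2)) ≤ (5 * Fintype.card X) ^ 50)) := by
  refine ⟨?_, ?_, ?_, ?_, ?_⟩
  · intro G _ m n p M L i j α β hα hβ hsc F D hD S hS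
    exact det_group M L i j α β hα hβ hsc F D hD S hS
  · intro G _ m n p M L i j α β hα hβ hsc Ω _ P hP0 hP1 F D hD q S hq hS
    exact rand_group M L i j α β hα hβ hsc P hP0 hP1 F D hD q S hq hS
  · intro T w R _ _ hR m n p M L i j α β hα hβ hsc
    refine ⟨?_, ?_⟩
    · intro f g D hD
      have h := det_ring M L w i j α β hα hβ hsc hR f g D hD
      refine ⟨h, ?_⟩
      have h2 : 2 ^ (min n L) ≤ (n + L).choose n := two_pow_min_le_choose n L
      exact (Nat.pow_le_pow_iff_right (by norm_num)).1 (h2.trans h)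
    · intro Ω _ P hP0 hP1 f g D hD
      exact rand_ring M L w i j α β hα hβ hsc hR P hP0 hP1 f g D hD
  · exact scales_exact
  · intro X Y Z _ _ _ _ m n p M i j π
    refine ⟨?_, ?_⟩
    · intro f g D hD
      exact det_dec M i j π f g D hD
    · intro Ω _ P hP0 hP1 f g D hD
      exact rand_dec M i j π P hP0 hP1 f g D hD
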