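import Mathlib
import Pool.Agent.N575.PCT.Main

/-!
# Shortest paths with real lengths: path comparisons and few degenerate tests

A directed graph has three layers of `n` vertices: `A i j` is the length of the edge from `i` (first
layer) to `j` (second layer), `B j k` the length of the edge from `j` to `k` (third layer) and `C i k`
the length of the edge from `i` to `k`. The definitions are in `Pool/Agent/N575/LDT/Model.lean`,
`Pool/Agent/N575/PCT/Model.lean` and `Pool/Agent/N575/PCT/Main.lean`:

* `lengths A B C : Wts n`: the lengths as one vector (`C` with the sign `-`);
* `pot x`: the lengths `A i j = x i - x j`, `B j k = x j - x k`, `C i k = x i - x k` given by a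
  potential `x` on the vertices, for which all paths from `i` to `k` are equally long;
* `Shallow f`: the function `f` of the lengths (with values in the integers) is locally constant near
  `pot x` for a dense set of potentials `x`;
* `Regular f`: the real function `f` of the lengths is, for generic (a comeagre set of) potentials
  `x`, differentiable at `pot x`, with a value or a derivative which is not zero;
* `pathLen w i k o`: the length of the edge from `i` to `k` (`o = none`) or of the path through `j`
  (`o = some j`);
* `Near δ A B C`: the entries of `A`, `B`, `C` differ from `1`, `1`, `2` by less than `δ`;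
* `Alg n β`: decision trees with outputs in `β`; a node asks for the value of a shallow function
  (`free`), for the comparison of the lengths of two paths with the same end vertices (`cmp`), or
  for the sign of an arbitrary regular function (`smooth`). The trees may be infinite, but all
  branches are finite;
* `run t w`: the output; `cmps t w`, `tests t w`: the numbers of nodes `cmp` and `smooth` on the
  path of the computation. Nodes `free` are not counted.

So free are for example the sign of every analytic function which is not zero for all potentials and
the integer part of every analytic function which is not an integer for all potentials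
(`shallow_sign`, `shallow_floor` in `Pool/Agent/N575/LDT/Main.lean`): all comparisons of paths with
different end vertices, all binary digits of the lengths, all linear forms and polynomials except
those which vanish for all potentials. All analytic functions which are not zero of the second order
for all potentials are regular (part 3).

Let a random decision tree find shortest paths with probability `2 / 3`, and let `T` and `q` bound
the expected numbers of the path comparisons and of the regular tests for graphs where all edges
from the first to the third layer are shortest paths. Then
`n ^ 3 ≤ 10 T + 213 n ^ 2 √(q (3 log n + 5))`. For `q = 0` these are the algorithms based on path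
comparisons (with arbitrary free tests), for which a cubic lower bound for deterministic algorithms
was proved by Karger, Koller and Phillips. For a saving over `n ^ 3 / 20` comparisons at least
`c n ^ 2 / log n` regular tests of functions which vanish for all potentials are necessary. This is
almost optimal, since `O (n ^ 2 (log n) ^ 2)` linear tests suffice (Kane, Lovett and Moran).

Proof. Near a generic potential all shallow functions are constant, and the regular functions have a
constant sign or the sign of their derivative in the direction of the deviation `u`. So there remain
linear tests and path comparisons for `u`. Take `u = D (a + σ g)`, where `g` is a Gaussian vector and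
`D` multiplies the edges at the vertex `j` of the second layer by `8 ^ j`: with high probability the
results of all path comparisons are known, and they can be removed (a comparison in which the path
`τ` takes part rejects). If `D⁻¹ u` is moved by the indicator `s` of `τ = (i, j, k)` such that `τ`
becomes shorter than the edge from `i` to `k` then no other comparison changes its result. The effect
on the probability of acceptance of a tree of linear tests is bounded by the root of the mean square
of the projection of `s / σ` to the span of the forms which are tested (`main_ineq` in
`Pool/Agent/N575/LDT/LTree2.lean`): the path of the computation does not change if only this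
projection is moved, so the translation is replaced by an adaptive translation along the tested
forms, and the relative entropy of it is one half of this mean square. For all `τ` together the
projections have at most the squared length `2 n q / σ ^ 2`.
-/

set_option autoImplicit false

namespace Pool.Agent.Results.MP_885423_lc.PathComparisons

open Pool.Agent.N575.LDT (Wts pot acc acc_nonneg acc_le)
open Pool.Agent.N575.PCT

/-- the length of the path from `i` to `k` given by `o`: the edge from `i` to `k` (`none`), or the
path through the vertex `j` of the second layer (`some j`) -/
def pathLength {n : ℕ} (A B C : Fin n → Fin n → ℝ) (i k : Fin n) : Option (Fin n) → ℝ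
  | none => C i k
  | some j => A i j + B j k

/-- the paths `S i k` are shortest paths -/
def Shortest {n : ℕ} (A B C : Fin n → Fin n → ℝ) (S : Fin n → Fin n → Option (Fin n)) : Prop :=
  ∀ i k o, pathLength A B C i k (S i k) ≤ pathLength A B C i k o

/-- there is no shortcut: every edge from the first to the third layer is shorter than all other
paths -/
def NoShortcut {n : ℕ} (A B C : Fin n → Fin n → ℝ) : Prop :=
  ∀ i j k, C i k < A i j + B j k

/-- there is exactly one shortcut, and it is strictly shorter -/
def OneShortcut {n : ℕ} (A B C : Fin n → Fin n → ℝ) : Prop :=
  ∃ i j k, A i j + B j k < C i k ∧
    ∀ i' j' k', (i', j', k') ≠ (i, j, k) → C i' k' < A i' j' + B j' k'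

open Classical in
/-- the probability of `X` -/
noncomputable def prob {ι : Type} [Fintype ι] (p : ι → ℝ) (X : ι → Prop) : ℝ :=
  ∑ i, if X i then p i else 0

/-- the mean of `X` -/
def mean {ι : Type} [Fintype ι] (p : ι → ℝ) (X : ι → ℕ) : ℝ := ∑ i, p i * X i

theorem prob_eq {ι : Type} [Fintype ι] (p : ι → ℝ) (X : ι → Bool) :
    prob p (fun i => X i = true) = ∑ i, p i * acc (X i) := by
  unfold prob acc
  refine Finset.sum_congr rfl fun i _ => ?_
  split_ifs <;> simp

/-- Random decision trees (`t i` with probability `p i`) with real lengths close to `1`, `1`, `2`.
1. Trees which find shortest paths with probability `2 / 3`.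
2. Trees which decide with error probability `1 / 3` whether there is no or exactly one shortcut.
In both cases `T` and `q` bound the mean numbers of the path comparisons and of the tests of regular
functions if there is no shortcut.
3. An analytic function is regular if for some potential its value or its derivative is not zero. -/
theorem result :
    (∀ n : ℕ, 1 ≤ n → ∀ δ : ℝ, 0 < δ → ∀ (ι : Type) [Fintype ι] (p : ι → ℝ),
      (∀ i, 0 ≤ p i) → ∑ i, p i = 1 →
      ∀ (t : ι → Alg n (Fin n → Fin n → Option (Fin n))) (T q : ℝ),
      (∀ A B C, Near δ A B C →
        2 / 3 ≤ prob p fun i => Shortest A B C ((t i).run (lengths A B C))) →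
      (∀ A B C, Near δ A B C → NoShortcut A B C →
        mean p (fun i => (t i).cmps (lengths A B C)) ≤ T ∧
        mean p (fun i => (t i).tests (lengths A B C)) ≤ q) →
      (n : ℝ) ^ 3 ≤ 10 * T + 213 * n ^ 2 * √(q * (3 * Real.log n + 5))) ∧
    (∀ n : ℕ, 1 ≤ n → ∀ δ : ℝ, 0 < δ → ∀ (ι : Type) [Fintype ι] (p : ι → ℝ),
      (∀ i, 0 ≤ p i) → ∑ i, p i = 1 → ∀ (t : ι → Alg n Bool) (T q : ℝ),
      (∀ A B C, Near δ A B C → NoShortcut A B C →
        2 / 3 ≤ prob p fun i => (t i).run (lengths A B C) = true) →
      (∀ A B C, Near δ A B C → OneShortcut A B C →
        (prob p fun i => (t i).run (lengths A B C) = true) ≤ 1 / 3) →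
      (∀ A B C, Near δ A B C → NoShortcut A B C →
        mean p (fun i => (t i).cmps (lengths A B C)) ≤ T ∧
        mean p (fun i => (t i).tests (lengths A B C)) ≤ q) →
      (n : ℝ) ^ 3 ≤ 10 * T + 213 * n ^ 2 * √(q * (3 * Real.log n + 5))) ∧
    (∀ (n : ℕ) (f : Wts n → ℝ), AnalyticOnNhd ℝ f Set.univ →
      (∃ x, f (pot x) ≠ 0 ∨ fderiv ℝ f (pot x) ≠ 0) → Regular f) := by
  classical
  refine ⟨?_, ?_, fun n f hf h => regular_analytic hf h⟩
  · intro n hn δ hδ ι _ p hp hp1 t T q h1 h2
    obtain ⟨φ, hφ⟩ : ∃ φ : (Fin n → Fin n → Option (Fin n)) → Bool,
        φ = fun S => decide (S = fun _ _ => none) := ⟨_, rfl⟩
    refine final hp hp1 φ t hn hδ (T := T) (q := q) ?_ ?_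
    · intro A B C hnear hno
      have h3 := h2 A B C hnear hno
      unfold mean at h3
      refine ⟨?_, h3.1, h3.2⟩
      refine (h1 A B C hnear).trans ?_
      unfold prob
      refine Finset.sum_le_sum fun i _ => ?_
      by_cases hS : Shortest A B C ((t i).run (lengths A B C))
      · rw [if_pos hS]
        have h4 : (t i).run (lengths A B C) = fun _ _ => none := by
          funext a c
          cases h5 : (t i).run (lengths A B C) a c with
          | none => rfl
          | some j =>
            have h6 := hS a c none
            rw [h5] at h6
            exact absurd h6 (not_le.2 (hno a j c))
        rw [h4, hφ]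
        simp [acc]
      · rw [if_neg hS]
        exact mul_nonneg (hp i) (acc_nonneg _)
    · intro A B C hnear a b c h3 _
      have h4 := h1 A B C hnear
      have h5 : prob p (fun i => Shortest A B C ((t i).run (lengths A B C))) +
          ∑ i, p i * acc (φ ((t i).run (lengths A B C))) ≤ 1 := by
        unfold prob
        rw [← Finset.sum_add_distrib, ← hp1]
        refine Finset.sum_le_sum fun i _ => ?_
        by_cases h6 : (t i).run (lengths A B C) = fun _ _ => none
        · rw [if_neg, zero_add]
          · calc p i * acc (φ ((t i).run (lengths A B C))) ≤ p i * 1 :=
                  mul_le_mul_of_nonneg_left (acc_le _) (hp i)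
              _ = p i := mul_one _
          · intro hS
            have h7 := hS a c (some b)
            rw [h6] at h7
            exact absurd h7 (not_le.2 h3)
        · have h7 : acc (φ ((t i).run (lengths A B C))) = 0 := by
            rw [hφ]
            simp [acc, h6]
          rw [h7, mul_zero, add_zero]
          split_ifs
          · exact le_rfl
          · exact hp i
      linarith
  · intro n hn δ hδ ι _ p hp hp1 t T q h1 h2 h3
    refine final hp hp1 id t hn hδ (T := T) (q := q) ?_ ?_
    · intro A B C hnear hno
      have h4 := h3 A B C hnear hno
      have h5 := h1 A B C hnear hno
      rw [prob_eq] at h5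
      unfold mean at h4
      exact ⟨h5, h4.1, h4.2⟩
    · intro A B C hnear a b c h4 h5
      have h6 := h2 A B C hnear ⟨a, b, c, h4, h5⟩
      rw [prob_eq] at h6
      exact h6

end Pool.Agent.Results.MP_885423_lc.PathComparisons
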