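import Mathlib
import Pool.Agent.N452.TF.MinPlusUp

/-!
# Shortest paths: the trade-off between dimension and number of readings

A directed graph has three layers of `n` vertices and the edge weights `A i k` (first to second
layer), `B k j` (second to third layer) and `C i j` (first to third layer). Is some edge `i → j`
longer than a path `i → k → j` (`shortcut`)? This is the decision version of the min-plus product,
which has the same exponent as APSP. The items of the input are the weights of all edges at `i`, for
each vertex `i` of the first layer, and the matrix `B`.

*Formulas* (`Fml`). The wires carry vectors of dimension `d` with real coordinates (of unlimited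
precision). The leaves are vectors, or matrices which are applied to a vector (`act`), which depend in
an arbitrary way on one item, or on `w` words with `n ^ c` values, each of which is an arbitrary
function of one item. The gates are sums, arbitrary bilinear maps of two vectors (`bil`), tests of the
sign of a linear form with two arbitrary vectors as results (`test`), and gates `sym` of any fan-in
whose value is an arbitrary function of the number of the inputs for which a linear form is positive.
So products of matrices of order `d` (weighted automata, also quantum automata, with unbounded error)
and the contractions of tensor networks whose intermediate tensors have at most `d` entries are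
formulas of this kind; the case `d = 1` contains all real formulas.

*Circuits* (`Circuit`) compute shared bits; each bit is the result of a branching program whose tests
are formulas, and the leaves may also read the bits computed before. A leaf which reads an item pays
its price: one for the weights at a vertex `i`, nothing for `B`, and for a shared bit the number of the
vertices `i` on whose weights the bit depends. The cost is the sum of the prices of all leaves, plus
the number of inner nodes of the branching programs, plus the number of wires which lead to gates
`sym`. All other gates and constants are free.

(1) Random circuits with error probability at most `1 / 3` on the graphs with weights in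
`{1, …, n + 1}` have cost `s ≥ n ^ 3 / (1900 (w c + d ^ 2))`.
(2) One formula of dimension `d`, without shared bits, has cost at most
`2 n (n / d + 1) ^ 2 + 1` and is right for all weights.

So for constant `w` and `c` the least number of readings is of the exact order `n ^ 3 / d ^ 2` for all
`1 ≤ d ≤ n`: the only way to save readings (up to constant factors) is to compute with vectors of
large dimension, or with shared bits which depend on the weights at many vertices.

Proof. (1) The weights at `i` can ask for `n ^ 2 log₂ n` bits which are encoded in the other weights
(helper697, `Pool.Agent.TH697.Form.MinPlus`). We count the functions of the weights at `i` which arise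
when the others are fixed. If `r` leaves see them or bits which depend on them, there are `O (r)` places
at which other parts enter, and the function of the vector at such a place is an affine map or a
function of the sign of an affine form, so it is given by `O (d ^ 2)` parameters; Warren's theorem bounds
the number of sign patterns, and the values of the shared bits are treated one after the other.
(2) With `X = n ^ 3 + 1` the sum of the numbers `X ^ (C i j - A i k - B k j)` is larger than `n ^ 3` if and
only if there is a shortcut; it is computed by blocks of length `d`.
-/

set_option autoImplicit false

namespace Pool.Agent.Results.MP_885423_lc.TensorCircuits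

open Pool.Agent.TH697.Form (IsProb)
open Pool.Agent.TH697.Row (ApproximatesOn)
open Pool.Agent.TH697.Form.MinPlus (Item InRange shortcut)
open Pool.Agent.N452.TF (Circuit)
open Pool.Agent.N452.TF.Xor (pairs)

theorem result :
    (∀ n c w d : ℕ, 16 ≤ n → 1 ≤ c → 1 ≤ w → 1 ≤ d →
      ∀ (Ω : Type) [Fintype Ω] (μ : Ω → ℝ), IsProb μ →
        ∀ (s : ℕ) (C : Ω → Circuit (Option (Fin n)) (Item n) w (n ^ c) d),
          (∀ ω, (C ω).circ.cost (pairs n) ≤ s) →
          ApproximatesOn μ (fun ω => (C ω).eval) (InRange n (n + 1)) (shortcut n) →
          (n : ℝ) ^ 3 ≤ 1900 * (w * c + (d : ℝ) ^ 2) * s) ∧
    (∀ n w q d : ℕ, 1 ≤ d → ∃ C : Circuit (Option (Fin n)) (Item n) w q d, C.bits = 0 ∧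
      C.circ.cost (pairs n) ≤ 2 * n * (n / d + 1) ^ 2 + 1 ∧ ∀ x, C.eval x = shortcut n x) :=
  ⟨fun _ _ _ _ hn hc hw hd _ _ μ hμ s C hs hC =>
    Pool.Agent.N452.TF.MinPlus.bound hn hc hw hd μ hμ s C hs hC,
    fun n w q d hd => Pool.Agent.N452.TF.MinPlus.upper_dim n w q d hd⟩

end Pool.Agent.Results.MP_885423_lc.TensorCircuits
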